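import Mathlib

/-!
# Branching annihilating random walk (MP_0a21e2_pr): definitions
-/

set_option autoImplicit false

open Finset

namespace Pool.Agent.Helper26.BW1

variable {d : ℕ}

/-- The box `B_R(x)`. -/
noncomputable def box (R : ℕ) (x : Fin d → ℤ) : Finset (Fin d → ℤ) :=
  Finset.Icc (fun i => x i - R) (fun i => x i + R)

/-- `δ_R(x; η)`. -/
noncomputable def dens (R : ℕ) (x : Fin d → ℤ) (η : Finset (Fin d → ℤ)) : ℝ :=
  ((η ∩ box R x).card : ℝ) / (2 * (R : ℝ) + 1) ^ d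

/-- `φ_μ(w) = μ w e^{-μ w}`. -/
noncomputable def phi (μ w : ℝ) : ℝ := μ * w * Real.exp (-(μ * w))

/-- The sites which can be occupied in the next generation. -/
noncomputable def nbhd (R : ℕ) (η : Finset (Fin d → ℤ)) : Finset (Fin d → ℤ) := η.biUnion (box R)

/-- The probability that the configuration `η` is followed by `η' ⊆ nbhd R η`. -/
noncomputable def prob (μ : ℝ) (R : ℕ) (η η' : Finset (Fin d → ℤ)) : ℝ :=
  ∏ x ∈ nbhd R η, if x ∈ η' then phi μ (dens R x η) else 1 - phi μ (dens R x η)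

/-- One step of the process: `avg μ R F η` is the mean of `F(η₁)` for the process with
`η₀ = η`. -/
noncomputable def avg (μ : ℝ) (R : ℕ) (F : Finset (Fin d → ℤ) → ℝ) (η : Finset (Fin d → ℤ)) : ℝ :=
  ∑ η' ∈ (nbhd R η).powerset, prob μ R η η' * F η'

/-- Indicator of a nonempty configuration. -/
noncomputable def alive (η : Finset (Fin d → ℤ)) : ℝ := if η = ∅ then 0 else 1

theorem bern (M : Finset (Fin d → ℤ)) (p : (Fin d → ℤ) → ℝ) (A : Finset (Fin d → ℤ))
    (hA : A ⊆ M) :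
    ∑ s ∈ M.powerset, (∏ x ∈ M, if x ∈ s then p x else 1 - p x) *
      (if A ⊆ s then (1 : ℝ) else 0) = ∏ x ∈ A, p x := by
  have h1 := Finset.prod_add (fun x => p x) (fun x => if x ∈ A then (0:ℝ) else 1 - p x) M
  have h2 : ∏ x ∈ M, (p x + if x ∈ A then (0:ℝ) else 1 - p x) = ∏ x ∈ A, p x := by
    rw [← Finset.prod_subset hA]
    · apply Finset.prod_congr rfl
      intro x hx
      simp [hx]
    · intro x _ hx
      simp [hx]
  rw [← h2, h1]
  apply Finset.sum_congr rfl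
  intro s hs
  have hsM : s ⊆ M := Finset.mem_powerset.mp hs
  have h3 : ∏ x ∈ M, (if x ∈ s then p x else 1 - p x) =
      (∏ x ∈ s, p x) * ∏ x ∈ M \ s, (1 - p x) := by
    rw [Finset.prod_ite]
    congr 1
    · apply Finset.prod_congr _ (fun _ _ => rfl)
      ext x
      simp only [Finset.mem_filter]
      exact ⟨fun h => h.2, fun h => ⟨hsM h, h⟩⟩
    · apply Finset.prod_congr _ (fun _ _ => rfl)
      ext x
      simp only [Finset.mem_filter, Finset.mem_sdiff]
  rw [h3]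
  by_cases hAs : A ⊆ s
  · rw [if_pos hAs, mul_one]
    congr 1
    apply Finset.prod_congr rfl
    intro x hx
    rw [Finset.mem_sdiff] at hx
    rw [if_neg (fun h => hx.2 (hAs h))]
  · rw [if_neg hAs, mul_zero]
    obtain ⟨x, hxA, hxs⟩ := Finset.not_subset.mp hAs
    have h4 : ∏ x ∈ M \ s, (if x ∈ A then (0:ℝ) else 1 - p x) = 0 := by
      apply Finset.prod_eq_zero (Finset.mem_sdiff.mpr ⟨hA hxA, hxs⟩)
      simp [hxA]
    rw [h4, mul_zero]

theorem phi_nonneg {μ w : ℝ} (hμ : 0 ≤ μ) (hw : 0 ≤ w) : 0 ≤ phi μ w := by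
  unfold phi
  positivity

theorem phi_le {μ w : ℝ} : phi μ w ≤ Real.exp (-1) := by
  unfold phi
  have h := Real.add_one_le_exp (μ * w - 1)
  have h1 : μ * w ≤ Real.exp (μ * w - 1) := by linarith
  calc μ * w * Real.exp (-(μ * w)) ≤ Real.exp (μ * w - 1) * Real.exp (-(μ * w)) := by
        gcongr
    _ = Real.exp (-1) := by
        rw [← Real.exp_add]
        congr 1
        ring

theorem dens_nonneg (R : ℕ) (x : Fin d → ℤ) (η : Finset (Fin d → ℤ)) : 0 ≤ dens R x η := by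
  unfold dens
  positivity

theorem mem_box_comm {R : ℕ} {x y : Fin d → ℤ} : x ∈ box R y ↔ y ∈ box R x := by
  unfold box
  simp only [Finset.mem_Icc, Pi.le_def]
  constructor
  · rintro ⟨h1, h2⟩
    exact ⟨fun i => by linarith [h2 i], fun i => by linarith [h1 i]⟩
  · rintro ⟨h1, h2⟩
    exact ⟨fun i => by linarith [h2 i], fun i => by linarith [h1 i]⟩

theorem inter_eq_empty_of_notMem {R : ℕ} {x : Fin d → ℤ} {η : Finset (Fin d → ℤ)}
    (hx : x ∉ nbhd R η) : η ∩ box R x = ∅ := by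
  rw [Finset.eq_empty_iff_forall_notMem]
  intro y hy
  rw [Finset.mem_inter] at hy
  apply hx
  unfold nbhd
  rw [Finset.mem_biUnion]
  exact ⟨y, hy.1, mem_box_comm.mp hy.2⟩

theorem phi_dens_eq_zero {μ : ℝ} {R : ℕ} {x : Fin d → ℤ} {η : Finset (Fin d → ℤ)}
    (hx : x ∉ nbhd R η) : phi μ (dens R x η) = 0 := by
  unfold dens phi
  rw [inter_eq_empty_of_notMem hx]
  simp

/-- Mean of an indicator product. -/
theorem avg_indicator (μ : ℝ) (R : ℕ) (η A : Finset (Fin d → ℤ)) :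
    avg μ R (fun s => if A ⊆ s then (1 : ℝ) else 0) η = ∏ x ∈ A, phi μ (dens R x η) := by
  by_cases hA : A ⊆ nbhd R η
  · exact bern (nbhd R η) (fun x => phi μ (dens R x η)) A hA
  · obtain ⟨x, hxA, hx⟩ := Finset.not_subset.mp hA
    rw [Finset.prod_eq_zero hxA (phi_dens_eq_zero hx)]
    unfold avg
    apply Finset.sum_eq_zero
    intro s hs
    have hs' := Finset.mem_powerset.mp hs
    have h1 : ¬ A ⊆ s := fun h => hx (hs' (h hxA))
    simp only [if_neg h1, mul_zero]

theorem prob_nonneg {μ : ℝ} (hμ : 0 ≤ μ) (R : ℕ) (η η' : Finset (Fin d → ℤ)) :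
    0 ≤ prob μ R η η' := by
  unfold prob
  apply Finset.prod_nonneg
  intro x _
  have h1 := phi_nonneg hμ (dens_nonneg R x η)
  have h2 : phi μ (dens R x η) ≤ Real.exp (-1) := phi_le
  have h3 : Real.exp (-1) ≤ 1 := Real.exp_le_one_iff.mpr (by norm_num)
  split_ifs
  · exact h1
  · linarith

theorem avg_mono {μ : ℝ} (hμ : 0 ≤ μ) (R : ℕ) {F G : Finset (Fin d → ℤ) → ℝ}
    (h : ∀ η, F η ≤ G η) (η : Finset (Fin d → ℤ)) : avg μ R F η ≤ avg μ R G η := by
  unfold avg
  apply Finset.sum_le_sum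
  intro s _
  exact mul_le_mul_of_nonneg_left (h s) (prob_nonneg hμ R η s)

theorem avg_const_mul (μ : ℝ) (R : ℕ) (F : Finset (Fin d → ℤ) → ℝ) (c : ℝ)
    (η : Finset (Fin d → ℤ)) : avg μ R (fun s => c * F s) η = c * avg μ R F η := by
  unfold avg
  rw [Finset.mul_sum]
  apply Finset.sum_congr rfl
  intro s _
  ring

theorem avg_sum {ι : Type*} (μ : ℝ) (R : ℕ) (T : Finset ι) (F : ι → Finset (Fin d → ℤ) → ℝ)
    (η : Finset (Fin d → ℤ)) :
    avg μ R (fun s => ∑ i ∈ T, F i s) η = ∑ i ∈ T, avg μ R (F i) η := by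
  unfold avg
  simp_rw [Finset.mul_sum]
  rw [Finset.sum_comm]

theorem avg_add (μ : ℝ) (R : ℕ) (F G : Finset (Fin d → ℤ) → ℝ) (η : Finset (Fin d → ℤ)) :
    avg μ R (fun s => F s + G s) η = avg μ R F η + avg μ R G η := by
  unfold avg
  rw [← Finset.sum_add_distrib]
  apply Finset.sum_congr rfl
  intro s _
  ring

theorem avg_congr (μ : ℝ) (R : ℕ) {F G : Finset (Fin d → ℤ) → ℝ} {η : Finset (Fin d → ℤ)}
    (h : ∀ s, s ⊆ nbhd R η → F s = G s) : avg μ R F η = avg μ R G η := by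
  unfold avg
  apply Finset.sum_congr rfl
  intro s hs
  rw [h s (Finset.mem_powerset.mp hs)]

/-- Mean number of particles after one step. -/
theorem avg_card (μ : ℝ) (R : ℕ) (η : Finset (Fin d → ℤ)) :
    avg μ R (fun s => (s.card : ℝ)) η = ∑ x ∈ nbhd R η, phi μ (dens R x η) := by
  have h1 : avg μ R (fun s => (s.card : ℝ)) η =
      avg μ R (fun s => ∑ x ∈ nbhd R η, if {x} ⊆ s then (1 : ℝ) else 0) η := by
    apply avg_congr
    intro s hs
    simp only [Finset.singleton_subset_iff]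
    rw [Finset.sum_ite_mem, Finset.inter_eq_right.mpr hs]
    simp
  rw [h1, avg_sum]
  apply Finset.sum_congr rfl
  intro x _
  rw [avg_indicator]
  simp

end Pool.Agent.Helper26.BW1
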