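import Pool.Agent.Helper26.BW1.Defs

/-!
# Branching annihilating random walk in dimension one with range one: two steps decrease the mean
-/

set_option autoImplicit false

open Finset

namespace Pool.Agent.Helper26.BW1

/-- The line. -/
abbrev G := Fin 1 → ℤ

/-- The unit vector. -/
def e : G := fun _ => 1

theorem e_ne_zero : e ≠ 0 := by
  intro h
  have := congrFun h 0
  simp [e] at this

theorem sub_ne_self (x : G) : x - e ≠ x := by
  intro h
  exact e_ne_zero (by simpa using h)

theorem self_ne_add (x : G) : x ≠ x + e := by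
  intro h
  exact e_ne_zero (by simpa using h.symm)

theorem sub_ne_add (x : G) : x - e ≠ x + e := by
  intro h
  have := congrFun h 0
  simp only [Pi.sub_apply, Pi.add_apply, e] at this
  omega

theorem box_one (x : G) : box 1 x = {x - e, x, x + e} := by
  ext y
  unfold box
  simp only [Finset.mem_Icc, Finset.mem_insert, Finset.mem_singleton, Pi.le_def, Nat.cast_one]
  constructor
  · rintro ⟨h1, h2⟩
    have h1 := h1 0
    have h2 := h2 0
    have h3 : y 0 = x 0 - 1 ∨ y 0 = x 0 ∨ y 0 = x 0 + 1 := by omega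
    rcases h3 with h | h | h
    · left
      funext i
      fin_cases i
      simpa [e] using h
    · right; left
      funext i
      fin_cases i
      exact h
    · right; right
      funext i
      fin_cases i
      simpa [e] using h
  · rintro (h | h | h) <;> subst h <;> constructor <;> intro i <;>
      (try simp only [e, Pi.sub_apply, Pi.add_apply]) <;> omega

/-- Indicator. -/
noncomputable def ind (η : Finset G) (x : G) : ℝ := if x ∈ η then 1 else 0

theorem ind_cases (η : Finset G) (x : G) : ind η x = 0 ∨ ind η x = 1 := by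
  unfold ind
  split_ifs
  · exact Or.inr rfl
  · exact Or.inl rfl

theorem dens_one (x : G) (η : Finset G) :
    dens 1 x η = (ind η (x - e) + ind η x + ind η (x + e)) / 3 := by
  unfold dens
  rw [box_one]
  have h1 : ((η ∩ {x - e, x, x + e} : Finset G).card : ℝ) =
      ind η (x - e) + ind η x + ind η (x + e) := by
    have h2 : (η ∩ {x - e, x, x + e} : Finset G) =
        ({x - e, x, x + e} : Finset G).filter (fun y => y ∈ η) := by
      ext y
      simp only [Finset.mem_inter, Finset.mem_filter]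
      exact and_comm
    rw [h2, Finset.card_filter, Nat.cast_sum, Finset.sum_insert, Finset.sum_insert,
      Finset.sum_singleton]
    · unfold ind
      push_cast
      ring
    · rw [Finset.mem_singleton]
      exact self_ne_add x
    · rw [Finset.mem_insert, Finset.mem_singleton]
      rintro (h | h)
      · exact sub_ne_self x h
      · exact sub_ne_add x h
  rw [h1]
  norm_num

/-- `(μ/3) e^{-μ/3}`. -/
noncomputable def aa (μ : ℝ) : ℝ := μ / 3 * Real.exp (-(μ / 3))

/-- `1 - e^{-μ/3}`. -/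
noncomputable def uu (μ : ℝ) : ℝ := 1 - Real.exp (-(μ / 3))

/-- The polynomial. -/
def Q (a u i j k : ℝ) : ℝ :=
  a * (i + j + k - 2 * u * (i * j + j * k + i * k) + 3 * u ^ 2 * (i * j * k))

theorem phi_Q (μ : ℝ) {i j k : ℝ} (hi : i = 0 ∨ i = 1) (hj : j = 0 ∨ j = 1) (hk : k = 0 ∨ k = 1) :
    phi μ ((i + j + k) / 3) = Q (aa μ) (uu μ) i j k := by
  have h1 : Real.exp (-(μ * (1 / 3))) = Real.exp (-(μ / 3)) := by
    congr 1
    ring
  have h2 : Real.exp (-(μ * (2 / 3))) = Real.exp (-(μ / 3)) ^ 2 := by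
    rw [← Real.exp_nat_mul]
    congr 1
    push_cast
    ring
  have h3 : Real.exp (-(μ * (3 / 3))) = Real.exp (-(μ / 3)) ^ 3 := by
    rw [← Real.exp_nat_mul]
    congr 1
    push_cast
    ring
  have e1 : phi μ (1 / 3) = aa μ := by
    unfold phi aa
    rw [h1]
    ring
  have e2 : phi μ (2 / 3) = aa μ * (2 - 2 * uu μ) := by
    unfold phi aa uu
    rw [h2]
    ring
  have e3 : phi μ (3 / 3) = aa μ * (3 - 6 * uu μ + 3 * uu μ ^ 2) := by
    unfold phi aa uu
    rw [h3]
    ring
  have e0 : phi μ (0 / 3) = 0 := by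
    unfold phi
    simp
  unfold Q
  rcases hi with rfl | rfl <;> rcases hj with rfl | rfl <;> rcases hk with rfl | rfl
  · rw [show ((0:ℝ) + 0 + 0) = 0 by norm_num, e0]; ring
  · rw [show ((0:ℝ) + 0 + 1) = 1 by norm_num, e1]; ring
  · rw [show ((0:ℝ) + 1 + 0) = 1 by norm_num, e1]; ring
  · rw [show ((0:ℝ) + 1 + 1) = 2 by norm_num, e2]; ring
  · rw [show ((1:ℝ) + 0 + 0) = 1 by norm_num, e1]; ring
  · rw [show ((1:ℝ) + 0 + 1) = 2 by norm_num, e2]; ring
  · rw [show ((1:ℝ) + 1 + 0) = 2 by norm_num, e2]; ring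
  · rw [show ((1:ℝ) + 1 + 1) = 3 by norm_num, e3]; ring

/-- The probability that `x` is occupied after one step. -/
noncomputable def qq (μ : ℝ) (η : Finset G) (x : G) : ℝ := phi μ (dens 1 x η)

theorem qq_eq (μ : ℝ) (η : Finset G) (x : G) :
    qq μ η x = Q (aa μ) (uu μ) (ind η (x - e)) (ind η x) (ind η (x + e)) := by
  unfold qq
  rw [dens_one]
  exact phi_Q μ (ind_cases _ _) (ind_cases _ _) (ind_cases _ _)

theorem qq_nonneg {μ : ℝ} (hμ : 0 ≤ μ) (η : Finset G) (x : G) : 0 ≤ qq μ η x :=
  phi_nonneg hμ (dens_nonneg 1 x η)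

theorem qq_zero {μ : ℝ} {η : Finset G} {x : G} (hx : x ∉ nbhd 1 η) : qq μ η x = 0 :=
  phi_dens_eq_zero hx

theorem avg_i1 (μ : ℝ) (η : Finset G) (x : G) :
    avg μ 1 (fun s => ind s x) η = qq μ η x := by
  have h := avg_indicator μ 1 η {x}
  rw [Finset.prod_singleton] at h
  rw [qq, ← h]
  apply avg_congr
  intro s _
  simp only [Finset.singleton_subset_iff, ind]

theorem avg_i2 (μ : ℝ) (η : Finset G) {x y : G} (hxy : x ≠ y) :
    avg μ 1 (fun s => ind s x * ind s y) η = qq μ η x * qq μ η y := by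
  have h := avg_indicator μ 1 η {x, y}
  rw [Finset.prod_pair hxy] at h
  rw [qq, qq, ← h]
  apply avg_congr
  intro s _
  simp only [Finset.insert_subset_iff, Finset.singleton_subset_iff, ind]
  by_cases h1 : x ∈ s <;> by_cases h2 : y ∈ s <;> simp [h1, h2]

theorem avg_i3 (μ : ℝ) (η : Finset G) {x y z : G} (hxy : x ≠ y) (hxz : x ≠ z) (hyz : y ≠ z) :
    avg μ 1 (fun s => ind s x * ind s y * ind s z) η = qq μ η x * qq μ η y * qq μ η z := by
  have h := avg_indicator μ 1 η {x, y, z}
  rw [Finset.prod_insert (by simp [hxy, hxz]), Finset.prod_pair hyz] at h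
  rw [qq, qq, qq, mul_assoc, ← h]
  apply avg_congr
  intro s _
  simp only [Finset.insert_subset_iff, Finset.singleton_subset_iff, ind]
  by_cases h1 : x ∈ s <;> by_cases h2 : y ∈ s <;> by_cases h3 : z ∈ s <;> simp [h1, h2, h3]

theorem avg_Q (μ : ℝ) (η : Finset G) (x : G) :
    avg μ 1 (fun s => qq μ s x) η =
      Q (aa μ) (uu μ) (qq μ η (x - e)) (qq μ η x) (qq μ η (x + e)) := by
  have h1 : avg μ 1 (fun s => qq μ s x) η = avg μ 1 (fun s =>
      aa μ * (ind s (x - e)) + (aa μ * (ind s x) + (aa μ * (ind s (x + e)) +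
      (-(2 * aa μ * uu μ) * (ind s (x - e) * ind s x) +
      (-(2 * aa μ * uu μ) * (ind s x * ind s (x + e)) +
      (-(2 * aa μ * uu μ) * (ind s (x - e) * ind s (x + e)) +
      (3 * aa μ * uu μ ^ 2) * (ind s (x - e) * ind s x * ind s (x + e)))))))) η := by
    apply avg_congr
    intro s _
    rw [qq_eq]
    unfold Q
    ring
  rw [h1, avg_add, avg_add, avg_add, avg_add, avg_add, avg_add, avg_const_mul, avg_const_mul,
    avg_const_mul, avg_const_mul, avg_const_mul, avg_const_mul, avg_const_mul, avg_i1, avg_i1,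
    avg_i1, avg_i2 μ η (sub_ne_self x), avg_i2 μ η (self_ne_add x), avg_i2 μ η (sub_ne_add x),
    avg_i3 μ η (sub_ne_self x) (sub_ne_add x) (self_ne_add x)]
  unfold Q
  ring

theorem mem_nbhd_shift {η : Finset G} {x y : G} (hy : y ∈ η) (hxy : x ∈ box 1 y) :
    x ∈ nbhd 1 η := by
  unfold nbhd
  rw [Finset.mem_biUnion]
  exact ⟨y, hy, hxy⟩

theorem tsum_shift (f : G → ℝ) (v : G) : ∑' x, f (x + v) = ∑' x, f x :=
  (Equiv.addRight v).tsum_eq f

theorem summable_shift {f : G → ℝ} (hf : Summable f) (v : G) : Summable (fun x => f (x + v)) :=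
  (Equiv.addRight v).summable_iff.mpr hf

theorem summable_fin {f : G → ℝ} (K : Finset G) (h : ∀ x, x ∉ K → f x = 0) : Summable f :=
  summable_of_ne_finset_zero h

/-- The mean of the number of particles after two steps. -/
theorem avg_avg_card (μ : ℝ) (η : Finset G) :
    avg μ 1 (avg μ 1 (fun s => (s.card : ℝ))) η =
      ∑ x ∈ nbhd 1 (nbhd 1 η),
        Q (aa μ) (uu μ) (qq μ η (x - e)) (qq μ η x) (qq μ η (x + e)) := by
  have h1 : avg μ 1 (avg μ 1 (fun s => (s.card : ℝ))) η =
      avg μ 1 (fun s => ∑ x ∈ nbhd 1 (nbhd 1 η), qq μ s x) η := by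
    apply avg_congr
    intro s hs
    rw [avg_card]
    apply Finset.sum_subset
    · exact Finset.biUnion_subset_biUnion_of_subset_left _ hs
    · intro x _ hx
      exact qq_zero hx
  rw [h1, avg_sum]
  exact Finset.sum_congr rfl fun x _ => avg_Q μ η x

end Pool.Agent.Helper26.BW1
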