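import Pool.Agent.Helper26.BW1.Main

/-!
# Branching annihilating random walk, d = 1, R = 1: the estimate over two steps
-/

set_option autoImplicit false

open Finset

namespace Pool.Agent.Helper26.BW1

theorem aa_nonneg {μ : ℝ} (hμ : 0 ≤ μ) : 0 ≤ aa μ := by
  unfold aa
  positivity

theorem uu_nonneg {μ : ℝ} (hμ : 0 ≤ μ) : 0 ≤ uu μ := by
  unfold uu
  have : Real.exp (-(μ / 3)) ≤ 1 := Real.exp_le_one_iff.mpr (by linarith)
  linarith

theorem uu_le_one (μ : ℝ) : uu μ ≤ 1 := by
  unfold uu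
  have := Real.exp_pos (-(μ / 3))
  linarith

theorem Q_nonneg {a u i j k : ℝ} (ha : 0 ≤ a) (hu : u ≤ 1) (hi : i = 0 ∨ i = 1)
    (hj : j = 0 ∨ j = 1) (hk : k = 0 ∨ k = 1) : 0 ≤ Q a u i j k := by
  have h1 : 0 ≤ a * (1 - u) := mul_nonneg ha (by linarith)
  have h2 : 0 ≤ a * (1 - u) ^ 2 := mul_nonneg ha (sq_nonneg _)
  unfold Q
  rcases hi with rfl | rfl <;> rcases hj with rfl | rfl <;> rcases hk with rfl | rfl <;>
    nlinarith

/-- Pair inequality. -/
theorem pair_ineq {a u b1 b2 b3 b4 b5 b6 : ℝ} (ha : 0 ≤ a) (hu : u ≤ 1)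
    (h1 : b1 = 0 ∨ b1 = 1) (h2 : b2 = 0 ∨ b2 = 1) (h3 : b3 = 0 ∨ b3 = 1)
    (h4 : b4 = 0 ∨ b4 = 1) (h5 : b5 = 0 ∨ b5 = 1) (h6 : b6 = 0 ∨ b6 = 1) :
    a ^ 2 * (b3 * (1 - b1) * (1 - b2) * (1 - b4) * (1 - b5) +
      b4 * (1 - b2) * (1 - b3) * (1 - b5) * (1 - b6)) ≤ Q a u b2 b3 b4 * Q a u b3 b4 b5 := by
  have hq := mul_nonneg (Q_nonneg ha hu h2 h3 h4) (Q_nonneg ha hu h3 h4 h5)
  rcases h2 with rfl | rfl
  · rcases h5 with rfl | rfl
    · rcases h3 with rfl | rfl
      · rcases h4 with rfl | rfl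
        · simpa using hq
        · rcases h6 with rfl | rfl
          · unfold Q
            ring_nf
            exact le_rfl
          · simpa using hq
      · rcases h4 with rfl | rfl
        · rcases h1 with rfl | rfl
          · unfold Q
            ring_nf
            exact le_rfl
          · simpa using hq
        · simpa using hq
    · simpa using hq
  · simpa using hq

/-- The share of a particle in the mean after one step, divided by `a`. -/
def gg (u b1 b2 b4 b5 : ℝ) : ℝ :=
  (1 - u * b4) * (1 - u * b5) + (1 - u * b2) * (1 - u * b4) + (1 - u * b1) * (1 - u * b2)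

theorem share_ineq {a u c b1 b2 b3 b4 b5 : ℝ} (hu0 : 0 ≤ u) (hu : u ≤ 1)
    (hN1 : 3 * a ^ 2 * (3 - u) ≤ c) (hN2 : 9 * a ^ 2 - 8 * u * a ^ 3 ≤ c)
    (h1 : b1 = 0 ∨ b1 = 1) (h2 : b2 = 0 ∨ b2 = 1) (h3 : b3 = 0 ∨ b3 = 1)
    (h4 : b4 = 0 ∨ b4 = 1) (h5 : b5 = 0 ∨ b5 = 1) :
    3 * a ^ 2 * (b3 * gg u b1 b2 b4 b5) -
      8 * u * a ^ 3 * (b3 * (1 - b1) * (1 - b2) * (1 - b4) * (1 - b5)) ≤ c * b3 := by
  rcases h3 with rfl | rfl
  · simp
  have hk : ∀ g : ℝ, g ≤ 3 - u → 3 * a ^ 2 * g ≤ c := by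
    intro g hg
    have h0 : (0:ℝ) ≤ 3 * a ^ 2 := by positivity
    exact (mul_le_mul_of_nonneg_left hg h0).trans hN1
  unfold gg
  rcases h1 with rfl | rfl <;> rcases h2 with rfl | rfl <;> rcases h4 with rfl | rfl <;>
    rcases h5 with rfl | rfl
  · have e1 : 3 * a ^ 2 * (1 * ((1 - u * 0) * (1 - u * 0) + (1 - u * 0) * (1 - u * 0) +
        (1 - u * 0) * (1 - u * 0))) -
        8 * u * a ^ 3 * (1 * (1 - 0) * (1 - 0) * (1 - 0) * (1 - 0)) =
        9 * a ^ 2 - 8 * u * a ^ 3 := by ring
    rw [e1]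
    linarith
  all_goals
    simp only [mul_zero, sub_zero, mul_one, sub_self, one_mul]
    apply hk
    nlinarith

/-- One-particle decomposition. -/
theorem Q_split {a u i j k : ℝ} (hi : i = 0 ∨ i = 1) (hj : j = 0 ∨ j = 1) (hk : k = 0 ∨ k = 1) :
    Q a u i j k = a * (i * ((1 - u * j) * (1 - u * k))) +
      (a * (j * ((1 - u * i) * (1 - u * k))) + a * (k * ((1 - u * i) * (1 - u * j)))) := by
  unfold Q
  rcases hi with rfl | rfl <;> rcases hj with rfl | rfl <;> rcases hk with rfl | rfl <;> ring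

/-- Upper bound without the triple term. -/
theorem Q_upper {a u p q r : ℝ} (ha : 0 ≤ a) (hu0 : 0 ≤ u) (hu : u ≤ 1) (hp : 0 ≤ p)
    (hr : 0 ≤ r) (hq : q ≤ 1 / 2) :
    Q a u p q r ≤ a * p + (a * q + (a * r + (-(2 * u * a) * (p * q) +
      (-(2 * u * a) * (q * r))))) := by
  have h1 : a * p + (a * q + (a * r + (-(2 * u * a) * (p * q) + (-(2 * u * a) * (q * r))))) -
      Q a u p q r = a * u * (p * r) * (2 - 3 * u * q) := by
    unfold Q
    ring
  have h2 : 0 ≤ a * u * (p * r) * (2 - 3 * u * q) := by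
    apply mul_nonneg (mul_nonneg (mul_nonneg ha hu0) (mul_nonneg hp hr))
    nlinarith
  linarith

theorem two_step {μ c : ℝ} (hμ : 0 ≤ μ)
    (hN1 : 3 * aa μ ^ 2 * (3 - uu μ) ≤ c) (hN2 : 9 * aa μ ^ 2 - 8 * uu μ * aa μ ^ 3 ≤ c)
    (η : Finset G) :
    avg μ 1 (avg μ 1 (fun s => (s.card : ℝ))) η ≤ c * (η.card : ℝ) := by
  classical
  set a := aa μ with ha_def
  set u := uu μ with hu_def
  have ha : 0 ≤ a := aa_nonneg hμ
  have hu0 : 0 ≤ u := uu_nonneg hμ
  have hu1 : u ≤ 1 := uu_le_one μ
  set q := qq μ η with hq_def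
  have hq0 : ∀ x, 0 ≤ q x := qq_nonneg hμ η
  have hqh : ∀ x, q x ≤ 1 / 2 := by
    intro x
    have h1 : q x ≤ Real.exp (-1) := phi_le
    have h2 : Real.exp (-1) ≤ 1 / 2 := by
      rw [Real.exp_neg]
      have h3 : (2:ℝ) ≤ Real.exp 1 := by
        have := Real.add_one_le_exp (1:ℝ)
        linarith
      rw [← one_div]
      exact one_div_le_one_div_of_le (by norm_num) h3
    exact h1.trans h2
  have hqz : ∀ x, x ∉ nbhd 1 η → q x = 0 := fun x hx => qq_zero hx
  have sq : Summable q := summable_fin _ hqz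
  set r : G → ℝ := fun x => q x * q (x + e) with hr_def
  have sr : Summable r := summable_fin (nbhd 1 η) fun x hx => by
    simp only [hr_def, hqz x hx, zero_mul]
  -- step 1
  have hA : avg μ 1 (avg μ 1 (fun s => (s.card : ℝ))) η =
      ∑' x, Q a u (q (x - e)) (q x) (q (x + e)) := by
    rw [avg_avg_card]
    symm
    apply tsum_eq_sum
    intro x hx
    have h1 : q (x - e) = 0 := by
      apply hqz
      intro h
      apply hx
      apply mem_nbhd_shift h
      rw [box_one]
      simp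
    have h2 : q x = 0 := by
      apply hqz
      intro h
      apply hx
      apply mem_nbhd_shift h
      rw [box_one]
      simp
    have h3 : q (x + e) = 0 := by
      apply hqz
      intro h
      apply hx
      apply mem_nbhd_shift h
      rw [box_one]
      simp
    unfold Q
    rw [h1, h2, h3]
    ring
  have sQ : Summable fun x => Q a u (q (x - e)) (q x) (q (x + e)) := by
    apply summable_fin (nbhd 1 (nbhd 1 η))
    intro x hx
    have h1 : q (x - e) = 0 := by
      apply hqz
      intro h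
      apply hx
      apply mem_nbhd_shift h
      rw [box_one]
      simp
    have h2 : q x = 0 := by
      apply hqz
      intro h
      apply hx
      apply mem_nbhd_shift h
      rw [box_one]
      simp
    have h3 : q (x + e) = 0 := by
      apply hqz
      intro h
      apply hx
      apply mem_nbhd_shift h
      rw [box_one]
      simp
    rw [h1, h2, h3]
    unfold Q
    ring
  have s1 : Summable fun x => q (x - e) := by
    simpa only [sub_eq_add_neg] using summable_shift sq (-e)
  have s3 : Summable fun x => q (x + e) := summable_shift sq e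
  have s4 : Summable fun x => r (x - e) := by
    simpa only [sub_eq_add_neg] using summable_shift sr (-e)
  have t1 : ∑' x, q (x - e) = ∑' x, q x := by
    simpa only [sub_eq_add_neg] using tsum_shift q (-e)
  have t3 : ∑' x, q (x + e) = ∑' x, q x := tsum_shift q e
  have t4 : ∑' x, r (x - e) = ∑' x, r x := by
    simpa only [sub_eq_add_neg] using tsum_shift r (-e)
  have hB : ∑' x, Q a u (q (x - e)) (q x) (q (x + e)) ≤
      a * (3 * ∑' x, q x) - 4 * u * a * ∑' x, r x := by
    have hle : ∀ x, Q a u (q (x - e)) (q x) (q (x + e)) ≤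
        a * q (x - e) + (a * q x + (a * q (x + e) + (-(2 * u * a) * r (x - e) +
          (-(2 * u * a) * r x)))) := by
      intro x
      have h := Q_upper ha hu0 hu1 (hq0 (x - e)) (hq0 (x + e)) (hqh x)
      have h' : r (x - e) = q (x - e) * q x := by
        simp only [hr_def, sub_add_cancel]
      rw [h']
      exact h
    have sa := s1.mul_left a
    have sb := sq.mul_left a
    have sc := s3.mul_left a
    have sd := s4.mul_left (-(2 * u * a))
    have se := sr.mul_left (-(2 * u * a))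
    refine (sQ.tsum_le_tsum hle (sa.add (sb.add (sc.add (sd.add se))))).trans ?_
    rw [sa.tsum_add (sb.add (sc.add (sd.add se))), sb.tsum_add (sc.add (sd.add se)),
      sc.tsum_add (sd.add se), sd.tsum_add se, tsum_mul_left, tsum_mul_left, tsum_mul_left,
      tsum_mul_left, tsum_mul_left, t1, t3, t4]
    apply le_of_eq
    ring
  -- step 2
  set i := ind η with hi_def
  have hi : ∀ x, i x = 0 ∨ i x = 1 := ind_cases η
  have hiz : ∀ x, x ∉ η → i x = 0 := fun x hx => by
    simp only [hi_def, ind, if_neg hx]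
  set B1 : G → ℝ := fun x => a * (i x * ((1 - u * i (x + e)) * (1 - u * i (x + e + e)))) with hB1
  set B2 : G → ℝ := fun x => a * (i x * ((1 - u * i (x - e)) * (1 - u * i (x + e)))) with hB2
  set B3 : G → ℝ := fun x => a * (i x * ((1 - u * i (x - e - e)) * (1 - u * i (x - e)))) with hB3
  have sB1 : Summable B1 := summable_fin η fun x hx => by simp only [hB1, hiz x hx, zero_mul, mul_zero]
  have sB2 : Summable B2 := summable_fin η fun x hx => by simp only [hB2, hiz x hx, zero_mul, mul_zero]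
  have sB3 : Summable B3 := summable_fin η fun x hx => by simp only [hB3, hiz x hx, zero_mul, mul_zero]
  have hqs : ∀ x, q x = B1 (x + -e) + (B2 x + B3 (x + e)) := by
    intro x
    have h : q x = Q a u (i (x - e)) (i x) (i (x + e)) := qq_eq μ η x
    rw [h, Q_split (hi _) (hi _) (hi _)]
    simp only [hB1, hB2, hB3, add_sub_cancel_right, ← sub_eq_add_neg,
      sub_add_cancel]
  have hC : ∑' x, q x = ∑' x, B1 x + (∑' x, B2 x + ∑' x, B3 x) := by
    have h1 : ∑' x, q x = ∑' x, (B1 (x + -e) + (B2 x + B3 (x + e))) := tsum_congr hqs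
    rw [h1, (summable_shift sB1 (-e)).tsum_add (sB2.add (summable_shift sB3 e)),
      sB2.tsum_add (summable_shift sB3 e), tsum_shift B1 (-e), tsum_shift B3 e]
  set J : G → ℝ := fun x => i x * (1 - i (x - e - e)) * (1 - i (x - e)) * (1 - i (x + e)) *
    (1 - i (x + e + e)) with hJ
  have sJ : Summable J := summable_fin η fun x hx => by simp only [hJ, hiz x hx, zero_mul]
  have hD : 2 * a ^ 2 * ∑' x, J x ≤ ∑' x, r x := by
    have hle : ∀ x, a ^ 2 * J x + a ^ 2 * J (x + e) ≤ r x := by
      intro x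
      have h1 : q x = Q a u (i (x - e)) (i x) (i (x + e)) := qq_eq μ η x
      have h2 : q (x + e) = Q a u (i x) (i (x + e)) (i (x + e + e)) := by
        have := qq_eq μ η (x + e)
        rw [add_sub_cancel_right] at this
        exact this
      have h3 := pair_ineq ha hu1 (hi (x - e - e)) (hi (x - e)) (hi x) (hi (x + e))
        (hi (x + e + e)) (hi (x + e + e + e))
      have h4 : r x = q x * q (x + e) := rfl
      rw [h4, h1, h2]
      refine le_trans (le_of_eq ?_) h3
      simp only [hJ, add_sub_cancel_right]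
      ring
    have sa := sJ.mul_left (a ^ 2)
    have sb := (summable_shift sJ e).mul_left (a ^ 2)
    have h := (sa.add sb).tsum_le_tsum hle sr
    rw [sa.tsum_add sb, tsum_mul_left, tsum_mul_left, tsum_shift J e] at h
    linarith
  have hE : 3 * a * (∑' x, B1 x + (∑' x, B2 x + ∑' x, B3 x)) - 8 * u * a ^ 3 * ∑' x, J x ≤
      c * (η.card : ℝ) := by
    have hle : ∀ x, (3 * a) * B1 x + ((3 * a) * B2 x + ((3 * a) * B3 x +
        (-(8 * u * a ^ 3)) * J x)) ≤ c * i x := by
      intro x
      have h := share_ineq hu0 hu1 hN1 hN2 (hi (x - e - e)) (hi (x - e)) (hi x)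
        (hi (x + e)) (hi (x + e + e))
      refine le_trans (le_of_eq ?_) h
      simp only [hB1, hB2, hB3, hJ, gg]
      ring
    have si : Summable i := summable_fin η hiz
    have s1 := sB1.mul_left (3 * a)
    have s2 := sB2.mul_left (3 * a)
    have s3 := sB3.mul_left (3 * a)
    have s4 := sJ.mul_left (-(8 * u * a ^ 3))
    have h := (s1.add (s2.add (s3.add s4))).tsum_le_tsum hle (si.mul_left c)
    have e1 : ∑' x, (3 * a) * B1 x = (3 * a) * ∑' x, B1 x := tsum_mul_left
    have e2 : ∑' x, (3 * a) * B2 x = (3 * a) * ∑' x, B2 x := tsum_mul_left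
    have e3 : ∑' x, (3 * a) * B3 x = (3 * a) * ∑' x, B3 x := tsum_mul_left
    have e4 : ∑' x, (-(8 * u * a ^ 3)) * J x = (-(8 * u * a ^ 3)) * ∑' x, J x := tsum_mul_left
    have e5 : ∑' x, c * i x = c * ∑' x, i x := tsum_mul_left
    rw [s1.tsum_add (s2.add (s3.add s4)), s2.tsum_add (s3.add s4), s3.tsum_add s4,
      e1, e2, e3, e4, e5] at h
    have hcard : ∑' x, i x = (η.card : ℝ) := by
      rw [tsum_eq_sum (s := η) hiz]
      simp only [hi_def, ind]
      rw [Finset.sum_ite_mem, Finset.inter_self]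
      simp
    rw [hcard] at h
    linarith
  have hua : 0 ≤ 4 * u * a := by positivity
  have hD' := mul_le_mul_of_nonneg_left hD hua
  rw [hA]
  rw [hC] at hB
  nlinarith [hB, hD', hE]

end Pool.Agent.Helper26.BW1
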