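import Pool.Agent.Helper26.BW1.Main2

/-!
# Branching annihilating random walk, d = 1, R = 1: the numerical inequalities
-/

set_option autoImplicit false

open Finset

namespace Pool.Agent.Helper26.BW1

theorem mul_exp_mono {x y : ℝ} (hxy : x ≤ y) (hy : y ≤ 1) (hy0 : 0 ≤ y) :
    x * Real.exp (-x) ≤ y * Real.exp (-y) := by
  have h1 := Real.add_one_le_exp (-(y - x))
  have h2 : x ≤ y * Real.exp (-(y - x)) := by
    have h3 : y * (-(y - x) + 1) ≤ y * Real.exp (-(y - x)) := mul_le_mul_of_nonneg_left h1 hy0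
    nlinarith [mul_nonneg (sub_nonneg.mpr hxy) (sub_nonneg.mpr hy)]
  have h4 : y * Real.exp (-y) = y * Real.exp (-(y - x)) * Real.exp (-x) := by
    rw [mul_assoc, ← Real.exp_add]
    congr 2
    ring
  rw [h4]
  exact mul_le_mul_of_nonneg_right h2 (Real.exp_pos _).le

theorem exp_neg_le_of {x b : ℝ} (hb : 0 < b) (h : b ≤ Real.exp x) : Real.exp (-x) ≤ 1 / b := by
  rw [Real.exp_neg, ← one_div]
  exact one_div_le_one_div_of_le hb h

theorem exp6 : Real.exp (-(3 / 5)) ≤ 0.5489 := by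
  have h := Real.sum_le_exp_of_nonneg (x := (3 / 5 : ℝ)) (by norm_num) 6
  refine (exp_neg_le_of (b := 1.822) (by norm_num) (le_trans ?_ h)).trans (by norm_num)
  simp only [Finset.sum_range_succ, Finset.sum_range_zero, Nat.factorial]
  norm_num

theorem exp8 : Real.exp (-(4 / 5)) ≤ 0.4494 := by
  have h := Real.sum_le_exp_of_nonneg (x := (4 / 5 : ℝ)) (by norm_num) 7
  refine (exp_neg_le_of (b := 2.2254) (by norm_num) (le_trans ?_ h)).trans (by norm_num)
  simp only [Finset.sum_range_succ, Finset.sum_range_zero, Nat.factorial]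
  norm_num

theorem exp9 : Real.exp (-(9 / 10)) ≤ 0.4066 := by
  have h := Real.sum_le_exp_of_nonneg (x := (9 / 10 : ℝ)) (by norm_num) 7
  refine (exp_neg_le_of (b := 2.45945) (by norm_num) (le_trans ?_ h)).trans (by norm_num)
  simp only [Finset.sum_range_succ, Finset.sum_range_zero, Nat.factorial]
  norm_num

theorem exp10 : Real.exp (-1) ≤ 0.3679 := by
  have h := Real.exp_one_gt_d9
  exact (exp_neg_le_of (b := 2.7182818283) (by norm_num) h.le).trans (by norm_num)

theorem f_mono {a A w : ℝ} (ha : 0 ≤ a) (haA : a ≤ A) (hA : A ≤ 1 / 2) (hw1 : w ≤ 1) :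
    9 * a ^ 2 - 8 * w * a ^ 3 ≤ 9 * A ^ 2 - 8 * w * A ^ 3 := by
  have hA0 : 0 ≤ A := ha.trans haA
  have h1 : 9 * A ^ 2 - 8 * w * A ^ 3 - (9 * a ^ 2 - 8 * w * a ^ 3) =
      (A - a) * (9 * (A + a) - 8 * w * (A ^ 2 + A * a + a ^ 2)) := by ring
  have h2 : 0 ≤ A ^ 2 + A * a + a ^ 2 := by positivity
  have h3 : 8 * w * (A ^ 2 + A * a + a ^ 2) ≤ 8 * (A ^ 2 + A * a + a ^ 2) := by nlinarith
  have h4 : A ^ 2 + A * a + a ^ 2 ≤ A + a := by nlinarith
  have h5 : 0 ≤ (A - a) * (9 * (A + a) - 8 * w * (A ^ 2 + A * a + a ^ 2)) := by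
    apply mul_nonneg (by linarith)
    linarith
  linarith

theorem num_case {a u A U c : ℝ} (ha : 0 ≤ a) (haA : a ≤ A) (hA : A ≤ 1 / 2)
    (hU1 : U ≤ 1) (hu : U ≤ u) (hu1 : u ≤ 1) (h1 : 3 * A ^ 2 * (3 - U) ≤ c)
    (h2 : 9 * A ^ 2 - 8 * U * A ^ 3 ≤ c) :
    3 * a ^ 2 * (3 - u) ≤ c ∧ 9 * a ^ 2 - 8 * u * a ^ 3 ≤ c := by
  have hA0 : 0 ≤ A := ha.trans haA
  have hsq : a ^ 2 ≤ A ^ 2 := pow_le_pow_left₀ ha haA 2
  constructor
  · refine le_trans ?_ h1
    have e1 : a ^ 2 * (3 - u) ≤ A ^ 2 * (3 - U) :=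
      mul_le_mul hsq (by linarith) (by linarith) (by positivity)
    linarith
  · refine le_trans ?_ h2
    refine le_trans ?_ (f_mono ha haA hA hU1)
    have e2 : 0 ≤ a ^ 3 := by positivity
    nlinarith

theorem num {μ : ℝ} (hμ : 9 / 5 ≤ μ) :
    3 * aa μ ^ 2 * (3 - uu μ) ≤ 0.996 ∧ 9 * aa μ ^ 2 - 8 * uu μ * aa μ ^ 3 ≤ 0.996 := by
  have hμ0 : 0 ≤ μ := by linarith
  have ha := aa_nonneg hμ0
  have hu1 := uu_le_one μ
  have e6 := exp6
  have e8 := exp8
  have e9 := exp9
  have e10 := exp10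
  rcases le_total (μ / 3) (4 / 5) with h | h
  · have h1 : aa μ ≤ 0.8 * 0.4494 := by
      have := mul_exp_mono h (by norm_num) (by norm_num)
      unfold aa
      nlinarith
    have h2 : Real.exp (-(μ / 3)) ≤ 0.5489 :=
      (Real.exp_le_exp.mpr (by linarith)).trans e6
    have h3 : 0.4511 ≤ uu μ := by
      unfold uu
      linarith
    exact num_case ha h1 (by norm_num) (by norm_num) h3 hu1 (by norm_num)
      (by norm_num)
  · rcases le_total (μ / 3) (9 / 10) with h' | h'
    · have h1 : aa μ ≤ 0.9 * 0.4066 := by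
        have := mul_exp_mono h' (by norm_num) (by norm_num)
        unfold aa
        nlinarith
      have h2 : Real.exp (-(μ / 3)) ≤ 0.4494 :=
        (Real.exp_le_exp.mpr (by linarith)).trans e8
      have h3 : 0.5506 ≤ uu μ := by
        unfold uu
        linarith
      exact num_case ha h1 (by norm_num) (by norm_num) h3 hu1 (by norm_num)
        (by norm_num)
    · have h1 : aa μ ≤ 0.3679 := by
        have h4 : phi μ (1 / 3) ≤ Real.exp (-1) := phi_le
        have h5 : phi μ (1 / 3) = aa μ := by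
          unfold phi aa
          rw [show μ * (1 / 3) = μ / 3 by ring]
        linarith
      have h2 : Real.exp (-(μ / 3)) ≤ 0.4066 :=
        (Real.exp_le_exp.mpr (by linarith)).trans e9
      have h3 : 0.5934 ≤ uu μ := by
        unfold uu
        linarith
      exact num_case ha h1 (by norm_num) (by norm_num) h3 hu1 (by norm_num)
        (by norm_num)

theorem num_small {μ : ℝ} (hμ : μ ≤ 9 / 5) : 3 * aa μ ≤ 0.99 := by
  have e6 := exp6
  have h : μ / 3 ≤ 3 / 5 := by linarith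
  have := mul_exp_mono h (by norm_num) (by norm_num)
  unfold aa
  nlinarith

/-- One step. -/
theorem one_step {μ : ℝ} (hμ : 0 ≤ μ) (η : Finset G) :
    avg μ 1 (fun s => (s.card : ℝ)) η ≤ 3 * aa μ * (η.card : ℝ) := by
  have ha := aa_nonneg hμ
  have hu0 := uu_nonneg hμ
  have hu1 := uu_le_one μ
  have hqz : ∀ x, x ∉ nbhd 1 η → qq μ η x = 0 := fun x hx => qq_zero hx
  have hiz : ∀ x, x ∉ η → ind η x = 0 := fun x hx => by simp only [ind, if_neg hx]
  have sq : Summable (qq μ η) := summable_fin _ hqz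
  have si : Summable (ind η) := summable_fin η hiz
  have hA : avg μ 1 (fun s => (s.card : ℝ)) η = ∑' x, qq μ η x := by
    rw [avg_card]
    symm
    exact tsum_eq_sum fun x hx => hqz x hx
  have hle : ∀ x, qq μ η x ≤ aa μ * ind η (x + -e) + (aa μ * ind η x + aa μ * ind η (x + e)) := by
    intro x
    rw [qq_eq, ← sub_eq_add_neg]
    have h1 := ind_cases η (x - e)
    have h2 := ind_cases η x
    have h3 := ind_cases η (x + e)
    unfold Q
    generalize ind η (x - e) = i at *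
    generalize ind η x = j at *
    generalize ind η (x + e) = k at *
    have h4 : 0 ≤ aa μ * uu μ := mul_nonneg ha hu0
    have h5 : aa μ * uu μ ^ 2 ≤ aa μ * uu μ := by nlinarith
    rcases h1 with rfl | rfl <;> rcases h2 with rfl | rfl <;> rcases h3 with rfl | rfl <;>
      nlinarith
  have s1 := (summable_shift si (-e)).mul_left (aa μ)
  have s2 := si.mul_left (aa μ)
  have s3 := (summable_shift si e).mul_left (aa μ)
  have h := sq.tsum_le_tsum hle (s1.add (s2.add s3))
  have e1 : ∑' x, aa μ * ind η (x + -e) = aa μ * ∑' x, ind η x := by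
    rw [tsum_mul_left, tsum_shift (ind η) (-e)]
  have e2 : ∑' x, aa μ * ind η x = aa μ * ∑' x, ind η x := tsum_mul_left
  have e3 : ∑' x, aa μ * ind η (x + e) = aa μ * ∑' x, ind η x := by
    rw [tsum_mul_left, tsum_shift (ind η) e]
  rw [s1.tsum_add (s2.add s3), s2.tsum_add s3, e1, e2, e3] at h
  have hcard : ∑' x, ind η x = (η.card : ℝ) := by
    rw [tsum_eq_sum (s := η) hiz]
    simp only [ind]
    rw [Finset.sum_ite_mem, Finset.inter_self]
    simp
  rw [hcard] at h
  rw [hA]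
  linarith

/-- Two steps decrease the mean number of particles by the factor `0.996`, for every `μ`. -/
theorem two_steps {μ : ℝ} (hμ : 0 ≤ μ) (η : Finset G) :
    avg μ 1 (avg μ 1 (fun s => (s.card : ℝ))) η ≤ 0.996 * (η.card : ℝ) := by
  rcases le_total (9 / 5) μ with h | h
  · exact two_step hμ (num h).1 (num h).2 η
  · have h1 := num_small h
    have ha := aa_nonneg hμ
    have hc : (0:ℝ) ≤ (η.card : ℝ) := Nat.cast_nonneg _
    have h2 := avg_mono hμ 1 (one_step hμ) η
    rw [avg_const_mul] at h2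
    have h3 := one_step hμ η
    have h4 : 3 * aa μ * avg μ 1 (fun s => (s.card : ℝ)) η ≤
        3 * aa μ * (3 * aa μ * (η.card : ℝ)) := mul_le_mul_of_nonneg_left h3 (by positivity)
    have h5 : 3 * aa μ * (3 * aa μ * (η.card : ℝ)) ≤ 0.99 * (0.99 * (η.card : ℝ)) := by
      apply mul_le_mul h1 (mul_le_mul_of_nonneg_right h1 hc) (by positivity) (by norm_num)
    nlinarith

end Pool.Agent.Helper26.BW1
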